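import Pool.Agent.Helper144.EKM.Final

set_option autoImplicit false

/-!
Turing determinacy implies the dual Borel conjecture, in a strong form: for every uncountable set
`A` of reals there is a closed null set `N` such that every real is the sum of an element of `A` and
an element of `N`, in uncountably many ways. Stated as an explicit reduction: to a set of reals we
attach certain Turing invariant sets of reals, and if they are determined, the conclusion holds.
-/

namespace Pool.Agent.Results.MP_057cde_lc.DualBorelConjecture

open Pool.Agent.H685R3 Pool.Agent.N620.WP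

/-- Turing reducibility of elements of the Cantor space (Mathlib's Turing reducibility, for
characteristic functions). -/
def Reducible (x y : ℕ → Bool) : Prop := TuringReducible (charFn x) (charFn y)

/-- `x` and `y` have the same Turing degree. -/
def SameDegree (x y : ℕ → Bool) : Prop := Reducible x y ∧ Reducible y x

/-- The join `x ⊕ y`. -/
def Join (x y : ℕ → Bool) : ℕ → Bool := fun n => if n % 2 = 0 then x (n / 2) else y (n / 2)

/-- The Turing saturation of a set. -/
def Saturation (B : Set (ℕ → Bool)) : Set (ℕ → Bool) := {x | ∃ x' ∈ B, SameDegree x' x}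

/-- The sets attached to `A` have the property `P`. The sets attached to `A` are the Turing
saturation of the set of all `y` such that for all `e` the bit `F y e` says correctly whether
`Ψ y e` is a member of `A`, and the Turing saturations of the sets of all `a ⊕ w` with `a ∈ A`, for
all reals `w`. -/
def Attached (P : Set (ℕ → Bool) → Prop) (Ψ : (ℕ → Bool) → ℕ → ℕ → Bool) (F : (ℕ → Bool) → ℕ → Bool)
    (A : Set (ℕ → Bool)) : Prop :=
  P (Saturation {y | ∀ e, Ψ y e ∈ A ↔ F y e = true}) ∧
    ∀ w, P (Saturation {y | ∃ a ∈ A, y = Join a w})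

/-- The uniform (fair coin, Haar) measure on the Cantor space. -/
noncomputable def haar : MeasureTheory.Measure (ℕ → Bool) :=
  MeasureTheory.Measure.infinitePi fun _ : ℕ => (PMF.uniformOfFintype Bool).toMeasure

theorem saturation_eq {E : ℕ → List Bool → ℕ → Bool → Prop} {A : Set (ℕ → Bool)} :
    Saturation {y | ∀ e, Psi (VE E) e y ∈ A ↔ G (VE E) e y 0 = true} = SS E A := by
  ext x
  constructor
  · rintro ⟨x', h, h1, h2⟩
    exact ⟨x', h1, h2, h⟩
  · rintro ⟨x', h1, h2, h⟩
    exact ⟨x', h, h1, h2⟩

theorem saturation_eq' {A : Set (ℕ → Bool)} {w : ℕ → Bool} :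
    Saturation {y | ∃ a ∈ A, y = Join a w} = DD A w := by
  ext x
  constructor
  · rintro ⟨x', ⟨a, ha, rfl⟩, h1, h2⟩
    exact ⟨a, ha, h1, h2⟩
  · rintro ⟨a, ha, h1, h2⟩
    exact ⟨_, ⟨a, ha, rfl⟩, h1, h2⟩

/-- There are Borel maps `Ψ` (from the Cantor space to sequences of elements of the Cantor space) and
`F` such that for every set `A` of reals the sets attached to `A` are Turing invariant, and if they
are determined, then `A` is countable, or there is a closed set `N` of measure zero such that for
every real `t` there are uncountably many `a ∈ A` with `a + t ∈ N` (coordinatewise sum modulo `2`);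
in particular every real `t` is of the form `a + y` with `a ∈ A` and `y ∈ N`. -/
theorem result :
    ∃ (Ψ : (ℕ → Bool) → ℕ → ℕ → Bool) (F : (ℕ → Bool) → ℕ → Bool), Measurable Ψ ∧ Measurable F ∧
      ∀ A : Set (ℕ → Bool), Attached TuringInvariant Ψ F A ∧
        (Attached Determined Ψ F A → A.Countable ∨
          ∃ N : Set (ℕ → Bool), IsClosed N ∧ haar N = 0 ∧
            ∀ t : ℕ → Bool, ¬ {a ∈ A | (fun n => xor (a n) (t n)) ∈ N}.Countable) := by
  obtain ⟨E, hE, hE'⟩ := Pool.Agent.Y588.PD.exists_fam
  refine ⟨fun y e => Psi (VE E) e y, fun y e => G (VE E) e y 0, measurable_psi hE, measurable_G,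
    fun A => ⟨⟨?_, fun w => ?_⟩, fun hD => ?_⟩⟩
  · rw [saturation_eq]
    exact inv_SS
  · rw [saturation_eq']
    exact inv_DD w
  · obtain ⟨h1, h2⟩ := hD
    rw [saturation_eq] at h1
    refine (main hE hE' h1 fun w => ?_).imp_right fun hF => ?_
    · have h3 := h2 w
      rwa [saturation_eq'] at h3
    exact Pool.Agent.Helper144.EKM.positive (full_pos hE hE' hF)

end Pool.Agent.Results.MP_057cde_lc.DualBorelConjecture
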